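import Mathlib

set_option autoImplicit false

open Finset

namespace Pool.Agent.K4H68.QC

variable {V : Type*} [Fintype V] [DecidableEq V]

/-- a set of triples -/
def Three (H : Finset (Finset V)) : Prop := ∀ e ∈ H, e.card = 3

/-- no four vertices span four edges -/
def Free (H : Finset (Finset V)) : Prop :=
  ∀ S : Finset V, S.card = 4 → ∃ e ⊆ S, e.card = 3 ∧ e ∉ H

/-- no edge inside `A` -/
def Indep (H : Finset (Finset V)) (A : Finset V) : Prop := ∀ e ∈ H, ¬ e ⊆ A

/-- no vertex of `A` and three vertices outside `A` span exactly one edge -/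
def NoSingle (H : Finset (Finset V)) (A : Finset V) : Prop :=
  ∀ a ∈ A, ∀ T ⊆ Aᶜ, T.card = 3 → (H.filter fun e => e ⊆ insert a T).card ≠ 1

theorem card_two {H : Finset (Finset V)} (h3 : Three H) (A : Finset V) :
    (H.filter fun e => (e ∩ A).card = 2).card =
      ∑ s ∈ powersetCard 2 A, (Aᶜ.filter fun b => insert b s ∈ H).card := by
  rw [Finset.card_eq_sum_card_fiberwise (f := fun e => e ∩ A) (t := powersetCard 2 A)]
  · apply Finset.sum_congr rfl
    intro s hs
    rw [mem_powersetCard] at hs
    symm
    apply Finset.card_bij (fun b _ => insert b s)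
    · intro b hb
      rw [mem_filter, mem_compl] at hb
      have hint : insert b s ∩ A = s := by
        ext x
        simp only [mem_inter, mem_insert]
        constructor
        · rintro ⟨rfl | h, hA⟩
          · exact absurd hA hb.1
          · exact h
        · intro h
          exact ⟨Or.inr h, hs.1 h⟩
      simp only [mem_filter]
      exact ⟨⟨hb.2, by rw [hint]; exact hs.2⟩, hint⟩
    · intro b hb c hc h
      rw [mem_filter, mem_compl] at hb hc
      have : b ∈ insert c s := by rw [← h]; exact mem_insert_self _ _
      rcases mem_insert.1 this with h | h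
      · exact h
      · exact absurd (hs.1 h) hb.1
    · intro e he
      simp only [mem_filter] at he
      obtain ⟨⟨heH, hc⟩, hes⟩ := he
      have hd : (e \ A).card = 1 := by
        have := Finset.card_inter_add_card_sdiff e A
        rw [h3 e heH] at this
        omega
      obtain ⟨b, hb⟩ := Finset.card_eq_one.1 hd
      have hbe : b ∈ e \ A := by rw [hb]; exact mem_singleton_self _
      rw [mem_sdiff] at hbe
      have heq : insert b s = e := by
        ext x
        rw [mem_insert]
        constructor
        · rintro (rfl | h)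
          · exact hbe.1
          · rw [← hes] at h
            exact (mem_inter.1 h).1
        · intro hx
          by_cases hxA : x ∈ A
          · right
            rw [← hes]
            exact mem_inter.2 ⟨hx, hxA⟩
          · left
            have : x ∈ e \ A := mem_sdiff.2 ⟨hx, hxA⟩
            rw [hb] at this
            exact mem_singleton.1 this
      refine ⟨b, ?_, heq⟩
      rw [mem_filter, mem_compl, heq]
      exact ⟨hbe.2, heH⟩
  · intro e he
    rw [mem_coe, mem_filter] at he
    rw [mem_coe, mem_powersetCard]
    exact ⟨inter_subset_right, he.2⟩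

theorem card_split {H : Finset (Finset V)} (h3 : Three H) {A : Finset V} (hA : Indep H A)
    (hB : Indep H Aᶜ) : H.card =
      ∑ s ∈ powersetCard 2 A, (Aᶜ.filter fun b => insert b s ∈ H).card +
      ∑ a ∈ A, ((powersetCard 2 Aᶜ).filter fun s => insert a s ∈ H).card := by
  have h1 := card_two h3 A
  have h2 := card_two h3 Aᶜ
  rw [compl_compl] at h2
  have h4 : ∑ s ∈ powersetCard 2 Aᶜ, (A.filter fun a => insert a s ∈ H).card =
      ∑ a ∈ A, ((powersetCard 2 Aᶜ).filter fun s => insert a s ∈ H).card := by
    have := Finset.sum_card_bipartiteAbove_eq_sum_card_bipartiteBelow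
      (s := A) (t := powersetCard 2 Aᶜ) (fun a s => insert a s ∈ H)
    simp only [Finset.bipartiteAbove, Finset.bipartiteBelow] at this
    exact this.symm
  rw [← h1, ← h4, ← h2, ← Finset.card_union_of_disjoint]
  · congr 1
    ext e
    rw [mem_union, mem_filter, mem_filter]
    constructor
    · intro he
      have hc := h3 e he
      have ha : ¬ e ⊆ A := hA e he
      have hb : ¬ e ⊆ Aᶜ := hB e he
      have hsum := Finset.card_inter_add_card_sdiff e A
      have hsd : e \ A = e ∩ Aᶜ := by
        ext x; simp
      rw [hsd] at hsum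
      have h5 : (e ∩ A).card ≠ 3 := by
        intro h
        apply ha
        have : e ∩ A = e := Finset.eq_of_subset_of_card_le inter_subset_left (by omega)
        rw [← this]
        exact inter_subset_right
      have h6 : (e ∩ Aᶜ).card ≠ 3 := by
        intro h
        apply hb
        have : e ∩ Aᶜ = e := Finset.eq_of_subset_of_card_le inter_subset_left (by omega)
        rw [← this]
        exact inter_subset_right
      have h7 : (e ∩ A).card = 2 ∨ (e ∩ Aᶜ).card = 2 := by omega
      rcases h7 with h | h
      · exact Or.inl ⟨he, h⟩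
      · exact Or.inr ⟨he, h⟩
    · rintro (h | h) <;> exact h.1
  · rw [Finset.disjoint_left]
    intro e he he'
    rw [mem_filter] at he he'
    have hsum := Finset.card_inter_add_card_sdiff e A
    have hsd : e \ A = e ∩ Aᶜ := by
      ext x; simp
    rw [hsd, h3 e he.1] at hsum
    omega

/-- sum of the maxima over pairs, one more element which is maximal -/
theorem pair_step {ι : Type*} [DecidableEq ι] (S : Finset ι) (m : ι → ℕ) (a : ι) (ha : a ∉ S)
    (hm : ∀ x ∈ S, m x ≤ m a) :
    ∑ s ∈ powersetCard 2 (insert a S), s.sup m =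
      ∑ s ∈ powersetCard 2 S, s.sup m + S.card * m a := by
  rw [Finset.powersetCard_succ_insert ha 1, Finset.sum_union]
  · congr 1
    rw [Finset.sum_image]
    · rw [Finset.sum_congr rfl (g := fun _ => m a)]
      · rw [Finset.sum_const, Finset.card_powersetCard, Nat.choose_one_right, smul_eq_mul]
      · intro s hs
        rw [mem_powersetCard] at hs
        rw [Finset.sup_insert]
        apply sup_of_le_left
        exact Finset.sup_le fun x hx => hm x (hs.1 hx)
    · intro s hs t ht h
      rw [mem_coe, mem_powersetCard] at hs ht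
      have h1 : a ∉ s := fun h => ha (hs.1 h)
      have h2 : a ∉ t := fun h => ha (ht.1 h)
      rw [← Finset.erase_insert h1, ← Finset.erase_insert h2]
      exact congrArg (fun u => Finset.erase u a) h
  · rw [Finset.disjoint_left]
    intro s hs hs'
    rw [mem_powersetCard] at hs
    rw [mem_image] at hs'
    obtain ⟨t, _, rfl⟩ := hs'
    exact ha (hs.1 (mem_insert_self _ _))

/-- the value of the best choice for the `c`-th vertex -/
def g (l c : ℕ) : ℕ := c * min c l - (min c l).choose 2

theorem g_bound (l c m : ℕ) (hm : m ≤ l) : c * m ≤ g l c + m.choose 2 := by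
  have key : ∀ x y : ℕ, c * y + x.choose 2 ≤ c * x + y.choose 2 → (c * y : ℕ) ≤ c * x - x.choose 2 + y.choose 2 := by
    intro x y h
    omega
  apply key
  have h1 : ∀ x : ℕ, 2 * x.choose 2 = x * (x - 1) := by
    intro x
    rw [Nat.choose_two_right]
    exact Nat.mul_div_cancel' (Nat.even_mul_pred_self x).two_dvd
  have h2 := h1 (min c l)
  have h3 := h1 m
  rcases le_total c l with h | h
  · rw [min_eq_left h] at *
    -- c y + C(c,2) ≤ c c + C(y,2)
    rcases Nat.eq_zero_or_pos m with rfl | hm0
    · rcases Nat.eq_zero_or_pos c with rfl | hc0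
      · simp
      · obtain ⟨d, rfl⟩ : ∃ d, c = d + 1 := ⟨c - 1, by omega⟩
        simp only [Nat.add_sub_cancel] at h2
        nlinarith
    · rcases Nat.eq_zero_or_pos c with rfl | hc0
      · simp
      · obtain ⟨d, rfl⟩ : ∃ d, c = d + 1 := ⟨c - 1, by omega⟩
        obtain ⟨e, rfl⟩ : ∃ e, m = e + 1 := ⟨m - 1, by omega⟩
        simp only [Nat.add_sub_cancel] at h2 h3
        have h4 : (0 : ℤ) ≤ ((d : ℤ) - e) * ((d : ℤ) - e + 1) := by
          rcases le_or_gt (d : ℤ) (e - 1) with h | h
          · nlinarith
          · have : (0 : ℤ) ≤ (d : ℤ) - e := by linarith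
            positivity
        have h5 : (2 * (d + 1).choose 2 : ℤ) = (d + 1) * d := by exact_mod_cast h2
        have h6 : (2 * (e + 1).choose 2 : ℤ) = (e + 1) * e := by exact_mod_cast h3
        have : ((d + 1) * (e + 1) + (d + 1).choose 2 : ℤ) ≤ (d + 1) * (d + 1) + (e + 1).choose 2 := by
          nlinarith
        exact_mod_cast this
  · rw [min_eq_right h] at *
    -- c m + C(l,2) ≤ c l + C(m,2), m ≤ l ≤ c
    rcases Nat.eq_zero_or_pos m with rfl | hm0
    · rcases Nat.eq_zero_or_pos l with rfl | hl0
      · simp
      · obtain ⟨d, rfl⟩ : ∃ d, l = d + 1 := ⟨l - 1, by omega⟩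
        simp only [Nat.add_sub_cancel] at h2
        nlinarith
    · obtain ⟨e, rfl⟩ : ∃ e, m = e + 1 := ⟨m - 1, by omega⟩
      obtain ⟨d, rfl⟩ : ∃ d, l = d + 1 := ⟨l - 1, by omega⟩
      simp only [Nat.add_sub_cancel] at h2 h3
      have h7 : e ≤ d := by omega
      nlinarith [Nat.mul_le_mul h7 h7, Nat.mul_le_mul h h7]

theorem pair_sum {ι : Type*} [DecidableEq ι] (l : ℕ) (m : ι → ℕ) (hm : ∀ x, m x ≤ l) :
    ∀ (k : ℕ) (S : Finset ι), S.card = k →
      ∑ s ∈ powersetCard 2 S, s.sup m ≤ ∑ c ∈ range k, g l c + ∑ x ∈ S, (m x).choose 2 := by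
  intro k
  induction k with
  | zero =>
    intro S hS
    rw [Finset.card_eq_zero] at hS
    subst hS
    simp
  | succ k ih =>
    intro S hS
    have hne : S.Nonempty := by
      rw [← Finset.card_pos]; omega
    obtain ⟨a, haS, hmax⟩ := Finset.exists_max_image S m hne
    have hins : insert a (S.erase a) = S := Finset.insert_erase haS
    have hna : a ∉ S.erase a := Finset.notMem_erase a S
    have hcard : (S.erase a).card = k := by
      rw [Finset.card_erase_of_mem haS, hS]; rfl
    rw [← hins, pair_step _ m a hna (fun x hx => hmax x (Finset.mem_of_mem_erase hx)),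
      Finset.sum_insert hna, Finset.sum_range_succ, hcard]
    have h1 := ih _ hcard
    have h2 := g_bound l k (m a) (hm a)
    omega

end Pool.Agent.K4H68.QC
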