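import Pool.Agent.K4H68.QC.Upper

set_option autoImplicit false

open Finset

namespace Pool.Agent.K4H68.QC

variable {V : Type*} [Fintype V] [DecidableEq V]

/-- a numbering of the elements of `S` by `0, 1, ...` -/
noncomputable def rk (S : Finset V) (x : V) : ℕ :=
  if h : x ∈ S then (S.equivFin ⟨x, h⟩ : ℕ) else 0

omit [Fintype V] in
theorem rk_lt {S : Finset V} {x : V} (hx : x ∈ S) : rk S x < S.card := by
  rw [rk, dif_pos hx]; exact Fin.is_lt _

omit [Fintype V] in
theorem rk_inj (S : Finset V) : Set.InjOn (rk S) (S : Set V) := by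
  intro x hx y hy h
  rw [mem_coe] at hx hy
  rw [rk, rk, dif_pos hx, dif_pos hy] at h
  have h1 := S.equivFin.injective (Fin.ext h)
  exact congrArg Subtype.val h1

theorem rk_image (S : Finset V) : S.image (rk S) = range S.card := by
  apply Finset.eq_of_subset_of_card_le
  · intro j hj
    obtain ⟨x, hx, rfl⟩ := mem_image.1 hj
    exact mem_range.2 (rk_lt hx)
  · rw [Finset.card_range, Finset.card_image_of_injOn (rk_inj S)]

theorem sum_rk (S : Finset V) (F : ℕ → ℕ) : ∑ x ∈ S, F (rk S x) = ∑ c ∈ range S.card, F c := by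
  rw [← rk_image S, Finset.sum_image (fun x hx y hy h => rk_inj S hx hy h)]

theorem count_rk (S : Finset V) (t : ℕ) :
    (S.filter fun b => S.card ≤ rk S b + t).card = min t S.card := by
  have h := sum_rk S (fun c => if S.card ≤ c + t then 1 else 0)
  rw [Finset.card_filter]
  rw [h, ← Finset.card_filter]
  have : (range S.card).filter (fun c => S.card ≤ c + t) = Finset.Ico (S.card - t) S.card := by
    ext c
    simp only [mem_filter, mem_range, mem_Ico]
    omega
  rw [this, Nat.card_Ico]
  omega

theorem pair_rk (l : ℕ) (r : V → ℕ) : ∀ (k : ℕ) (S : Finset V), S.card = k →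
    (∀ x ∈ S, r x < k) → Set.InjOn r (S : Set V) →
    ∑ s ∈ powersetCard 2 S, s.sup (fun x => min (r x) l) = ∑ c ∈ range k, c * min c l := by
  intro k
  induction k with
  | zero =>
    intro S hS _ _
    rw [Finset.card_eq_zero] at hS
    subst hS
    simp
  | succ k ih =>
    intro S hS hr hi
    have himg : S.image r = range (k + 1) := by
      apply Finset.eq_of_subset_of_card_le
      · intro j hj
        obtain ⟨x, hx, rfl⟩ := mem_image.1 hj
        exact mem_range.2 (hr x hx)
      · rw [Finset.card_range, Finset.card_image_of_injOn hi, hS]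
    have hk : k ∈ S.image r := by rw [himg]; exact self_mem_range_succ k
    obtain ⟨a, ha, hra⟩ := mem_image.1 hk
    have hins : insert a (S.erase a) = S := Finset.insert_erase ha
    have hna : a ∉ S.erase a := Finset.notMem_erase a S
    have hcard : (S.erase a).card = k := by rw [Finset.card_erase_of_mem ha, hS]; rfl
    have hlt : ∀ x ∈ S.erase a, r x < k := by
      intro x hx
      have h1 := hr x (Finset.mem_of_mem_erase hx)
      have h2 : r x ≠ k := by
        intro h
        exact (Finset.ne_of_mem_erase hx) (hi (mem_coe.2 (Finset.mem_of_mem_erase hx))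
          (mem_coe.2 ha) (h.trans hra.symm))
      omega
    rw [← hins, pair_step _ (fun x => min (r x) l) a hna, ih _ hcard hlt, Finset.sum_range_succ,
      hcard, hra]
    · exact hi.mono (by intro x hx; exact Finset.mem_of_mem_erase (mem_coe.1 hx))
    · intro x hx
      have := hlt x hx
      omega

/-- the half graph construction -/
noncomputable def half (A : Finset V) : Finset (Finset V) :=
  Finset.univ.filter fun e => e.card = 3 ∧
    (((e ∩ A).card = 2 ∧ ∀ b ∈ e ∩ Aᶜ, ∃ a ∈ e ∩ A, Aᶜ.card ≤ rk Aᶜ b + rk A a) ∨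
     ((e ∩ A).card = 1 ∧ ∃ b ∈ e ∩ Aᶜ, ∀ a ∈ e ∩ A, rk Aᶜ b + rk A a < Aᶜ.card))

theorem inter1 {A s : Finset V} {b : V} (hs : s ⊆ A) (hb : b ∈ Aᶜ) :
    insert b s ∩ A = s ∧ insert b s ∩ Aᶜ = {b} := by
  rw [mem_compl] at hb
  constructor
  · ext x
    simp only [mem_inter, mem_insert]
    constructor
    · rintro ⟨rfl | h, hA⟩
      · exact absurd hA hb
      · exact h
    · intro h
      exact ⟨Or.inr h, hs h⟩
  · ext x
    simp only [mem_inter, mem_insert, mem_compl, mem_singleton]
    constructor
    · rintro ⟨rfl | h, hA⟩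
      · rfl
      · exact absurd (hs h) hA
    · rintro rfl
      exact ⟨Or.inl rfl, hb⟩

theorem mem_half_two {A s : Finset V} {b : V} (hs : s ⊆ A) (hc : s.card = 2) (hb : b ∈ Aᶜ) :
    insert b s ∈ half A ↔ ∃ a ∈ s, Aᶜ.card ≤ rk Aᶜ b + rk A a := by
  obtain ⟨h1, h2⟩ := inter1 hs hb
  have hbs : b ∉ s := fun h => (mem_compl.1 hb) (hs h)
  rw [half, mem_filter]
  rw [h1, h2, Finset.card_insert_of_notMem hbs, hc]
  simp

theorem mem_half_one {A s : Finset V} {a : V} (hs : s ⊆ Aᶜ) (hc : s.card = 2) (ha : a ∈ A) :
    insert a s ∈ half A ↔ ∃ b ∈ s, rk Aᶜ b + rk A a < Aᶜ.card := by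
  obtain ⟨h1, h2⟩ := inter1 (A := Aᶜ) hs (by rwa [compl_compl])
  rw [compl_compl] at h2
  have hbs : a ∉ s := fun h => (mem_compl.1 (hs h)) ha
  rw [half, mem_filter]
  rw [h1, h2, Finset.card_insert_of_notMem hbs, hc]
  simp

theorem half_three (A : Finset V) : Three (half A) := by
  intro e he
  rw [half, mem_filter] at he
  exact he.2.1

theorem half_inter {A e : Finset V} (he : e ∈ half A) :
    ((e ∩ A).card = 2 ∧ (e ∩ Aᶜ).card = 1) ∨ ((e ∩ A).card = 1 ∧ (e ∩ Aᶜ).card = 2) := by
  rw [half, mem_filter] at he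
  have hsum := Finset.card_inter_add_card_sdiff e A
  have hsd : e \ A = e ∩ Aᶜ := by
    ext x; simp
  rw [hsd, he.2.1] at hsum
  rcases he.2.2 with h | h
  · left; have := h.1; omega
  · right; have := h.1; omega

theorem half_indep (A : Finset V) : Indep (half A) A := by
  intro e he hs
  have h1 : e ∩ A = e := Finset.inter_eq_left.2 hs
  have h2 := half_three A e he
  rcases half_inter he with h | h
  · rw [h1] at h; omega
  · rw [h1] at h; omega

theorem half_indep' (A : Finset V) : Indep (half A) Aᶜ := by
  intro e he hs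
  have h1 : e ∩ Aᶜ = e := Finset.inter_eq_left.2 hs
  have h2 := half_three A e he
  rcases half_inter he with h | h
  · rw [h1] at h; omega
  · rw [h1] at h; omega

theorem half_free (A : Finset V) : Free (half A) := by
  intro S hS
  by_contra hcon
  push Not at hcon
  have hall : ∀ e ⊆ S, e.card = 3 → e ∈ half A := hcon
  have hsum := Finset.card_inter_add_card_sdiff S A
  have hsd : S \ A = S ∩ Aᶜ := by
    ext x; simp
  rw [hsd, hS] at hsum
  by_cases h3 : 3 ≤ (S ∩ A).card
  · obtain ⟨e, he, hc⟩ := Finset.exists_subset_card_eq h3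
    exact half_indep A e (hall e (he.trans inter_subset_left) hc) (he.trans inter_subset_right)
  by_cases h4 : 3 ≤ (S ∩ Aᶜ).card
  · obtain ⟨e, he, hc⟩ := Finset.exists_subset_card_eq h4
    exact half_indep' A e (hall e (he.trans inter_subset_left) hc) (he.trans inter_subset_right)
  have h5 : (S ∩ A).card = 2 := by omega
  have h6 : (S ∩ Aᶜ).card = 2 := by omega
  have hne1 : (S ∩ A).Nonempty := by rw [← Finset.card_pos]; omega
  have hne2 : (S ∩ Aᶜ).Nonempty := by rw [← Finset.card_pos]; omega
  obtain ⟨a, ha, hamax⟩ := Finset.exists_max_image (S ∩ A) (rk A) hne1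
  obtain ⟨b, hb, hbmin⟩ := Finset.exists_min_image (S ∩ Aᶜ) (rk Aᶜ) hne2
  have hbA : b ∈ Aᶜ := (mem_inter.1 hb).2
  have haA : a ∈ A := (mem_inter.1 ha).2
  have e1 : insert b (S ∩ A) ∈ half A := by
    apply hall
    · intro x hx
      rcases mem_insert.1 hx with rfl | h
      · exact (mem_inter.1 hb).1
      · exact (mem_inter.1 h).1
    · rw [Finset.card_insert_of_notMem, h5]
      intro h
      exact (mem_compl.1 hbA) (mem_inter.1 h).2
  have e2 : insert a (S ∩ Aᶜ) ∈ half A := by
    apply hall
    · intro x hx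
      rcases mem_insert.1 hx with rfl | h
      · exact (mem_inter.1 ha).1
      · exact (mem_inter.1 h).1
    · rw [Finset.card_insert_of_notMem, h6]
      intro h
      exact (mem_compl.1 (mem_inter.1 h).2) haA
  rw [mem_half_two inter_subset_right h5 hbA] at e1
  rw [mem_half_one inter_subset_right h6 haA] at e2
  obtain ⟨a', ha', h7⟩ := e1
  obtain ⟨b', hb', h8⟩ := e2
  have h9 := hamax a' ha'
  have h10 := hbmin b' hb'
  omega

theorem half_noSingle (A : Finset V) : NoSingle (half A) A := by
  intro a ha T hT hT3 hcon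
  obtain ⟨e, he⟩ := Finset.card_eq_one.1 hcon
  have hmem : e ∈ (half A).filter fun e => e ⊆ insert a T := by
    rw [he]; exact mem_singleton_self _
  rw [mem_filter] at hmem
  obtain ⟨heH, heT⟩ := hmem
  have hec := half_three A e heH
  have hae : a ∈ e := by
    by_contra h
    apply half_indep' A e heH
    intro x hx
    rcases mem_insert.1 (heT hx) with rfl | h'
    · exact absurd hx h
    · exact hT h'
  have hsT : e.erase a ⊆ T := by
    intro x hx
    rcases mem_insert.1 (heT (Finset.mem_of_mem_erase hx)) with rfl | h'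
    · exact absurd rfl (Finset.ne_of_mem_erase hx)
    · exact h'
  have hsc : (e.erase a).card = 2 := by rw [Finset.card_erase_of_mem hae, hec]
  have heq : insert a (e.erase a) = e := Finset.insert_erase hae
  have h1 := heH
  rw [← heq, mem_half_one (hsT.trans hT) hsc ha] at h1
  obtain ⟨b, hb, hbl⟩ := h1
  -- the third vertex
  have h2 : (T \ e.erase a).card = 1 := by
    rw [Finset.card_sdiff_of_subset hsT, hT3, hsc]
  obtain ⟨c, hc⟩ := Finset.card_eq_one.1 h2
  have hcT : c ∈ T \ e.erase a := by rw [hc]; exact mem_singleton_self _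
  rw [mem_sdiff] at hcT
  have hbc : b ≠ c := fun h => hcT.2 (h ▸ hb)
  have hpc : ({b, c} : Finset V).card = 2 := Finset.card_pair hbc
  have hps : ({b, c} : Finset V) ⊆ T := by
    intro x hx
    rcases mem_insert.1 hx with rfl | h
    · exact hsT hb
    · rw [mem_singleton] at h; subst h; exact hcT.1
  have h3 : insert a ({b, c} : Finset V) ∈ half A := by
    rw [mem_half_one (hps.trans hT) hpc ha]
    exact ⟨b, by simp, hbl⟩
  have h4 : insert a ({b, c} : Finset V) ∈ (half A).filter fun e => e ⊆ insert a T := by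
    rw [mem_filter]
    exact ⟨h3, Finset.insert_subset_insert _ hps⟩
  rw [he, mem_singleton] at h4
  apply hcT.2
  rw [← h4]
  rw [Finset.mem_erase]
  refine ⟨?_, by simp⟩
  rintro rfl
  exact (mem_compl.1 (hT hcT.1)) ha

theorem half_card (A : Finset V) : (half A).card = f A.card Aᶜ.card := by
  rw [card_split (half_three A) (half_indep A) (half_indep' A), ← g_sum]
  have h1 : ∑ s ∈ powersetCard 2 A, (Aᶜ.filter fun b => insert b s ∈ half A).card =
      ∑ c ∈ range A.card, c * min c Aᶜ.card := by
    rw [← pair_rk Aᶜ.card (rk A) A.card A rfl (fun x hx => rk_lt hx) (rk_inj A)]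
    apply Finset.sum_congr rfl
    intro s hs
    rw [mem_powersetCard] at hs
    obtain ⟨x, y, hxy, rfl⟩ := Finset.card_eq_two.1 hs.2
    have h2 : (Aᶜ.filter fun b => insert b ({x, y} : Finset V) ∈ half A) =
        Aᶜ.filter fun b => Aᶜ.card ≤ rk Aᶜ b + max (rk A x) (rk A y) := by
      apply Finset.filter_congr
      intro b hb
      rw [mem_half_two hs.1 hs.2 hb]
      simp only [mem_insert, mem_singleton, exists_eq_or_imp, exists_eq_left]
      omega
    rw [h2, count_rk, Finset.sup_insert, Finset.sup_singleton]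
    change _ = max _ _
    omega
  have h3 : ∀ a ∈ A, ((powersetCard 2 Aᶜ).filter fun s => insert a s ∈ half A).card +
      (min (rk A a) Aᶜ.card).choose 2 = (Aᶜ.card).choose 2 := by
    intro a ha
    rw [← count_rk Aᶜ (rk A a), ← Finset.card_powersetCard 2 (Aᶜ.filter _),
      ← Finset.card_powersetCard 2 Aᶜ, ← Finset.card_union_of_disjoint]
    · congr 1
      ext s
      rw [mem_union, mem_filter]
      constructor
      · rintro (h | h)
        · exact h.1
        · rw [mem_powersetCard] at h ⊢
          exact ⟨h.1.trans (Finset.filter_subset _ _), h.2⟩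
      · intro hs
        by_cases h : insert a s ∈ half A
        · exact Or.inl ⟨hs, h⟩
        · right
          rw [mem_powersetCard] at hs ⊢
          refine ⟨?_, hs.2⟩
          intro x hx
          rw [mem_filter]
          refine ⟨hs.1 hx, ?_⟩
          by_contra hlt
          apply h
          rw [mem_half_one hs.1 hs.2 ha]
          exact ⟨x, hx, by omega⟩
    · rw [Finset.disjoint_left]
      intro s hs hs'
      rw [mem_filter, mem_powersetCard] at hs
      rw [mem_powersetCard] at hs'
      have h := hs.2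
      rw [mem_half_one hs.1.1 hs.1.2 ha] at h
      obtain ⟨b, hb, hlt⟩ := h
      have := (mem_filter.1 (hs'.1 hb)).2
      omega
  have h4 := Finset.sum_congr rfl h3
  rw [Finset.sum_add_distrib, Finset.sum_const, smul_eq_mul,
    sum_rk A (fun c => (min c Aᶜ.card).choose 2)] at h4
  have h5 : ∑ c ∈ range A.card, c * min c Aᶜ.card =
      ∑ c ∈ range A.card, g Aᶜ.card c + ∑ c ∈ range A.card, (min c Aᶜ.card).choose 2 := by
    rw [← Finset.sum_add_distrib]
    apply Finset.sum_congr rfl
    intro c _
    unfold g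
    have h6 : (min c Aᶜ.card).choose 2 ≤ c * min c Aᶜ.card := by
      rw [Nat.choose_two_right]
      refine (Nat.div_le_self _ _).trans ?_
      rw [mul_comm c]
      exact Nat.mul_le_mul_left _ (by omega)
    omega
  omega

end Pool.Agent.K4H68.QC
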