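import Pool.Agent.K4H68.QC.Basic

set_option autoImplicit false

open Finset

namespace Pool.Agent.K4H68.QC

/-- the extremal number -/
def f (a b : ℕ) : ℕ := min a b * (max a b).choose 2 + (min a b + 1).choose 3

theorem g_sum (l k : ℕ) : ∑ c ∈ range k, g l c + k * l.choose 2 = f k l := by
  have hc : ∀ x : ℕ, 2 * x.choose 2 = x * (x - 1) := by
    intro x
    rw [Nat.choose_two_right]
    exact Nat.mul_div_cancel' (Nat.even_mul_pred_self x).two_dvd
  induction k with
  | zero =>
    simp only [Finset.range_zero, Finset.sum_empty, zero_mul, f, Nat.zero_min, zero_add]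
    rfl
  | succ k ih =>
    rw [Finset.sum_range_succ]
    have e1 : ∑ c ∈ range k, g l c + g l k + (k + 1) * l.choose 2 =
        (∑ c ∈ range k, g l c + k * l.choose 2) + (g l k + l.choose 2) := by ring
    rw [e1, ih]
    unfold f g
    rcases Nat.lt_or_ge k l with h | h
    · rw [min_eq_left h.le, max_eq_right h.le, min_eq_left (Nat.succ_le_of_lt h),
        max_eq_right (Nat.succ_le_of_lt h)]
      have h1 : (k + 1 + 1).choose 3 = (k + 1).choose 2 + (k + 1).choose 3 := Nat.choose_succ_succ _ _
      have h2 : (k + 1).choose 2 = k + k.choose 2 := by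
        rw [Nat.choose_succ_succ]; simp
      have h3 := hc k
      have h4 : k.choose 2 ≤ k * k := by
        have : k * (k - 1) ≤ k * k := Nat.mul_le_mul_left _ (Nat.sub_le _ _)
        omega
      have h5 : k * k = k + 2 * k.choose 2 := by
        rw [h3]
        rcases Nat.eq_zero_or_pos k with rfl | hk
        · rfl
        · obtain ⟨d, rfl⟩ : ∃ d, k = d + 1 := ⟨k - 1, by omega⟩
          simp only [Nat.add_sub_cancel]; ring
      rw [h1, h2]
      have e2 : (k + 1) * l.choose 2 = k * l.choose 2 + l.choose 2 := by ring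
      rw [e2]
      omega
    · rw [min_eq_right h, max_eq_left h, min_eq_right (by omega), max_eq_left (by omega)]
      have h2 : (k + 1).choose 2 = k + k.choose 2 := by
        rw [Nat.choose_succ_succ]; simp
      have h3 := hc l
      have h4 : l.choose 2 ≤ k * l := by
        have h5 : l * (l - 1) ≤ l * l := Nat.mul_le_mul_left _ (Nat.sub_le _ _)
        have h6 : l * l ≤ k * l := Nat.mul_le_mul_right _ h
        omega
      rw [h2]
      have e2 : l * (k + k.choose 2) = k * l + l * k.choose 2 := by ring
      rw [e2]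
      omega

variable {V : Type*} [Fintype V] [DecidableEq V]

/-- independent sets of the link of `a` outside `A` -/
def ind (H : Finset (Finset V)) (A : Finset V) (a : V) : Finset (Finset V) :=
  Aᶜ.powerset.filter fun W => ∀ s ∈ powersetCard 2 W, insert a s ∉ H

/-- the largest size of such a set -/
def mm (H : Finset (Finset V)) (A : Finset V) (a : V) : ℕ := (ind H A a).sup Finset.card

theorem mm_le (H : Finset (Finset V)) (A : Finset V) (a : V) : mm H A a ≤ Aᶜ.card := by
  apply Finset.sup_le
  intro W hW
  rw [ind, mem_filter, mem_powerset] at hW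
  exact Finset.card_le_card hW.1

theorem le_mm {H : Finset (Finset V)} {A W : Finset V} {a : V} (hW : W ⊆ Aᶜ)
    (h : ∀ s ∈ powersetCard 2 W, insert a s ∉ H) : W.card ≤ mm H A a :=
  Finset.le_sup (f := Finset.card) (by rw [ind, mem_filter, mem_powerset]; exact ⟨hW, h⟩)

theorem exists_mm (H : Finset (Finset V)) (A : Finset V) (a : V) :
    ∃ W ⊆ Aᶜ, (∀ s ∈ powersetCard 2 W, insert a s ∉ H) ∧ W.card = mm H A a := by
  have hne : (ind H A a).Nonempty := by
    refine ⟨∅, ?_⟩
    rw [ind, mem_filter]
    refine ⟨mem_powerset.2 (empty_subset _), ?_⟩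
    intro s hs
    rw [mem_powersetCard] at hs
    have : s = ∅ := Finset.subset_empty.1 hs.1
    rw [this] at hs
    simp at hs
  obtain ⟨W, hW, h⟩ := Finset.exists_mem_eq_sup (ind H A a) hne Finset.card
  rw [ind, mem_filter, mem_powerset] at hW
  exact ⟨W, hW.1, hW.2, h.symm⟩

theorem link_card (H : Finset (Finset V)) (A : Finset V) (a : V) :
    ((powersetCard 2 Aᶜ).filter fun s => insert a s ∈ H).card + (mm H A a).choose 2 ≤
      (Aᶜ.card).choose 2 := by
  obtain ⟨W, hW, h, hc⟩ := exists_mm H A a
  rw [← hc, ← Finset.card_powersetCard 2 W, ← Finset.card_powersetCard 2 Aᶜ,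
    ← Finset.card_union_of_disjoint]
  · apply Finset.card_le_card
    intro s hs
    rw [mem_union, mem_filter] at hs
    rcases hs with hs | hs
    · exact hs.1
    · rw [mem_powersetCard] at hs ⊢
      exact ⟨hs.1.trans hW, hs.2⟩
  · rw [Finset.disjoint_left]
    intro s hs hs'
    rw [mem_filter] at hs
    exact h s hs' hs.2

/-- transitivity of non-adjacency in the link -/
theorem trans_link {H : Finset (Finset V)} {A : Finset V}
    (hB : Indep H Aᶜ) (hS : NoSingle H A) {a x y z : V} (ha : a ∈ A) (hx : x ∈ Aᶜ) (hy : y ∈ Aᶜ)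
    (hz : z ∈ Aᶜ) (hxy : x ≠ y) (hyz : y ≠ z) (hxz : x ≠ z)
    (h1 : ({a, x, y} : Finset V) ∉ H) (h2 : ({a, y, z} : Finset V) ∉ H) (h3 : Three H) :
    ({a, x, z} : Finset V) ∉ H := by
  intro h
  have hax : a ≠ x := fun e => (mem_compl.1 hx) (e ▸ ha)
  have hay : a ≠ y := fun e => (mem_compl.1 hy) (e ▸ ha)
  have haz : a ≠ z := fun e => (mem_compl.1 hz) (e ▸ ha)
  have hT : ({x, y, z} : Finset V) ⊆ Aᶜ := by
    intro w hw
    simp only [mem_insert, mem_singleton] at hw
    rcases hw with rfl | rfl | rfl <;> assumption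
  have hTc : ({x, y, z} : Finset V).card = 3 := Finset.card_eq_three.2 ⟨x, y, z, hxy, hxz, hyz, rfl⟩
  apply hS a ha _ hT hTc
  rw [Finset.card_eq_one]
  refine ⟨{a, x, z}, ?_⟩
  ext e
  rw [mem_filter, mem_singleton]
  constructor
  · rintro ⟨heH, hes⟩
    have hec := h3 e heH
    -- e omits exactly one of a x y z
    have h4 : (insert a ({x, y, z} : Finset V)).card = 4 := by
      rw [Finset.card_insert_of_notMem, hTc]
      simp only [mem_insert, mem_singleton, not_or]
      exact ⟨hax, hay, haz⟩
    have h5 : (insert a ({x, y, z} : Finset V) \ e).card = 1 := by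
      rw [Finset.card_sdiff_of_subset hes, h4, hec]
    obtain ⟨w, hw⟩ := Finset.card_eq_one.1 h5
    have hwm : w ∈ insert a ({x, y, z} : Finset V) \ e := by rw [hw]; exact mem_singleton_self _
    have hee : e = (insert a ({x, y, z} : Finset V)).erase w := by
      ext v
      rw [mem_erase]
      constructor
      · intro hv
        refine ⟨?_, hes hv⟩
        rintro rfl
        exact (mem_sdiff.1 hwm).2 hv
      · rintro ⟨hv1, hv2⟩
        by_contra hv
        have : v ∈ insert a ({x, y, z} : Finset V) \ e := mem_sdiff.2 ⟨hv2, hv⟩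
        rw [hw] at this
        exact hv1 (mem_singleton.1 this)
    have hwi := (mem_sdiff.1 hwm).1
    simp only [mem_insert, mem_singleton] at hwi
    rcases hwi with rfl | rfl | rfl | rfl
    · exfalso
      apply hB e heH
      rw [hee, Finset.erase_insert]
      · exact hT
      · simp only [mem_insert, mem_singleton, not_or]
        exact ⟨hax, hay, haz⟩
    · exfalso
      apply h2
      have : ({a, y, z} : Finset V) = e := by
        rw [hee]
        ext v
        simp only [mem_insert, mem_singleton, mem_erase]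
        constructor
        · rintro (rfl | rfl | rfl)
          · exact ⟨hax, by simp⟩
          · exact ⟨hxy.symm, by simp⟩
          · exact ⟨hxz.symm, by simp⟩
        · rintro ⟨hv, rfl | rfl | rfl | rfl⟩ <;> simp_all
      rw [this]; exact heH
    · rw [hee]
      ext v
      simp only [mem_insert, mem_singleton, mem_erase]
      constructor
      · rintro ⟨hv, rfl | rfl | rfl | rfl⟩ <;> simp_all
      · rintro (rfl | rfl | rfl)
        · exact ⟨hay, by simp⟩
        · exact ⟨hxy, by simp⟩
        · exact ⟨hyz.symm, by simp⟩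
    · exfalso
      apply h1
      have : ({a, x, y} : Finset V) = e := by
        rw [hee]
        ext v
        simp only [mem_insert, mem_singleton, mem_erase]
        constructor
        · rintro (rfl | rfl | rfl)
          · exact ⟨haz, by simp⟩
          · exact ⟨hxz, by simp⟩
          · exact ⟨hyz, by simp⟩
        · rintro ⟨hv, rfl | rfl | rfl | rfl⟩ <;> simp_all
      rw [this]; exact heH
  · rintro rfl
    refine ⟨h, ?_⟩
    intro v hv
    simp only [mem_insert, mem_singleton] at hv ⊢
    rcases hv with rfl | rfl | rfl <;> simp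

theorem pair_link {H : Finset (Finset V)} {A : Finset V} (h3 : Three H) (hF : Free H)
    (hB : Indep H Aᶜ) (hS : NoSingle H A) {a a' : V} (ha : a ∈ A) (ha' : a' ∈ A)
    (haa : a ≠ a') : (Aᶜ.filter fun b => insert b {a, a'} ∈ H).card ≤ max (mm H A a) (mm H A a') := by
  classical
  set D := Aᶜ.filter fun b => insert b {a, a'} ∈ H with hD
  have hDB : D ⊆ Aᶜ := Finset.filter_subset _ _
  -- the two relations
  have hcov : ∀ x ∈ D, ∀ y ∈ D, x ≠ y → ({a, x, y} : Finset V) ∉ H ∨ ({a', x, y} : Finset V) ∉ H := by
    intro x hx y hy hxy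
    by_contra hcon
    push Not at hcon
    have hxB := hDB hx
    have hyB := hDB hy
    have h1 : ({x, a, a'} : Finset V) ∈ H := (mem_filter.1 hx).2
    have h2 : ({y, a, a'} : Finset V) ∈ H := (mem_filter.1 hy).2
    have hax : a ≠ x := fun e => (mem_compl.1 hxB) (e ▸ ha)
    have hay : a ≠ y := fun e => (mem_compl.1 hyB) (e ▸ ha)
    have hax' : a' ≠ x := fun e => (mem_compl.1 hxB) (e ▸ ha')
    have hay' : a' ≠ y := fun e => (mem_compl.1 hyB) (e ▸ ha')
    have hc4 : ({a, a', x, y} : Finset V).card = 4 := by
      rw [Finset.card_insert_of_notMem, Finset.card_insert_of_notMem, Finset.card_pair hxy]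
      · simp only [mem_insert, mem_singleton, not_or]; exact ⟨hax', hay'⟩
      · simp only [mem_insert, mem_singleton, not_or]; exact ⟨haa, hax, hay⟩
    obtain ⟨e, he, hec, heH⟩ := hF _ hc4
    have h5 : (({a, a', x, y} : Finset V) \ e).card = 1 := by
      rw [Finset.card_sdiff_of_subset he, hc4, hec]
    obtain ⟨w, hw⟩ := Finset.card_eq_one.1 h5
    have hwm : w ∈ ({a, a', x, y} : Finset V) \ e := by rw [hw]; exact mem_singleton_self _
    have hee : e = ({a, a', x, y} : Finset V).erase w := by
      ext v
      rw [mem_erase]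
      constructor
      · intro hv
        refine ⟨?_, he hv⟩
        rintro rfl
        exact (mem_sdiff.1 hwm).2 hv
      · rintro ⟨hv1, hv2⟩
        by_contra hv
        have : v ∈ ({a, a', x, y} : Finset V) \ e := mem_sdiff.2 ⟨hv2, hv⟩
        rw [hw] at this
        exact hv1 (mem_singleton.1 this)
    have hwi := (mem_sdiff.1 hwm).1
    simp only [mem_insert, mem_singleton] at hwi
    apply heH
    rcases hwi with rfl | rfl | rfl | rfl
    · have : e = {a', x, y} := by
        rw [hee]; ext v
        simp only [mem_insert, mem_singleton, mem_erase]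
        constructor
        · rintro ⟨hv, rfl | rfl | rfl | rfl⟩ <;> simp_all
        · rintro (rfl | rfl | rfl)
          · exact ⟨haa.symm, by simp⟩
          · exact ⟨hax.symm, by simp⟩
          · exact ⟨hay.symm, by simp⟩
      rw [this]; exact hcon.2
    · have : e = {a, x, y} := by
        rw [hee]; ext v
        simp only [mem_insert, mem_singleton, mem_erase]
        constructor
        · rintro ⟨hv, rfl | rfl | rfl | rfl⟩ <;> simp_all
        · rintro (rfl | rfl | rfl)
          · exact ⟨haa, by simp⟩
          · exact ⟨hax'.symm, by simp⟩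
          · exact ⟨hay'.symm, by simp⟩
      rw [this]; exact hcon.1
    · have : e = {y, a, a'} := by
        rw [hee]; ext v
        simp only [mem_insert, mem_singleton, mem_erase]
        constructor
        · rintro ⟨hv, rfl | rfl | rfl | rfl⟩ <;> simp_all
        · rintro (rfl | rfl | rfl)
          · exact ⟨hxy.symm, by simp⟩
          · exact ⟨hax, by simp⟩
          · exact ⟨hax', by simp⟩
      rw [this]; exact h2
    · have : e = {x, a, a'} := by
        rw [hee]; ext v
        simp only [mem_insert, mem_singleton, mem_erase]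
        constructor
        · rintro ⟨hv, rfl | rfl | rfl | rfl⟩ <;> simp_all
        · rintro (rfl | rfl | rfl)
          · exact ⟨hxy, by simp⟩
          · exact ⟨hay, by simp⟩
          · exact ⟨hay', by simp⟩
      rw [this]; exact h1
  have hsym : ∀ (c x y : V), ({c, x, y} : Finset V) = {c, y, x} := by
    intro c x y; ext v; simp only [mem_insert, mem_singleton]; tauto
  -- reflexive closures
  set r : V → V → Prop := fun x y => x = y ∨ ({a, x, y} : Finset V) ∉ H with hr
  set r' : V → V → Prop := fun x y => x = y ∨ ({a', x, y} : Finset V) ∉ H with hr'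
  have rs : ∀ x y, r x y → r y x := by
    intro x y h
    rcases h with h | h
    · exact Or.inl h.symm
    · right; rw [hsym]; exact h
  have rs' : ∀ x y, r' x y → r' y x := by
    intro x y h
    rcases h with h | h
    · exact Or.inl h.symm
    · right; rw [hsym]; exact h
  have rt : ∀ x ∈ Aᶜ, ∀ y ∈ Aᶜ, ∀ z ∈ Aᶜ, r x y → r y z → r x z := by
    intro x hx y hy z hz h1 h2
    by_cases hxz : x = z
    · exact Or.inl hxz
    rcases h1 with rfl | h1
    · exact h2
    rcases h2 with rfl | h2
    · exact Or.inr h1
    by_cases hxy : x = y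
    · subst hxy; exact Or.inr h2
    by_cases hyz : y = z
    · subst hyz; exact Or.inr h1
    exact Or.inr (trans_link hB hS ha hx hy hz hxy hyz hxz h1 h2 h3)
  have rt' : ∀ x ∈ Aᶜ, ∀ y ∈ Aᶜ, ∀ z ∈ Aᶜ, r' x y → r' y z → r' x z := by
    intro x hx y hy z hz h1 h2
    by_cases hxz : x = z
    · exact Or.inl hxz
    rcases h1 with rfl | h1
    · exact h2
    rcases h2 with rfl | h2
    · exact Or.inr h1
    by_cases hxy : x = y
    · subst hxy; exact Or.inr h2
    by_cases hyz : y = z
    · subst hyz; exact Or.inr h1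
    exact Or.inr (trans_link hB hS ha' hx hy hz hxy hyz hxz h1 h2 h3)
  have hc : ∀ x ∈ D, ∀ y ∈ D, r x y ∨ r' x y := by
    intro x hx y hy
    by_cases hxy : x = y
    · exact Or.inl (Or.inl hxy)
    rcases hcov x hx y hy hxy with h | h
    · exact Or.inl (Or.inr h)
    · exact Or.inr (Or.inr h)
  have hall : (∀ x ∈ D, ∀ y ∈ D, r x y) ∨ (∀ x ∈ D, ∀ y ∈ D, r' x y) := by
    by_contra hcon
    push Not at hcon
    obtain ⟨⟨x, hx, y, hy, hxy⟩, z, hz, w, hw, hzw⟩ := hcon
    have hxB := hDB hx
    have hyB := hDB hy
    have hzB := hDB hz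
    have hwB := hDB hw
    have h1 : r' x y := (hc x hx y hy).resolve_left hxy
    have key : ∀ u ∈ D, r' u x := by
      intro u hu
      have huB := hDB hu
      by_cases hux : r u x
      · have : ¬ r u y := fun h => hxy (rt x hxB u huB y hyB (rs _ _ hux) h)
        exact rt' u huB y hyB x hxB ((hc u hu y hy).resolve_left this) (rs' _ _ h1)
      · exact (hc u hu x hx).resolve_left hux
    exact hzw (rt' z hzB x hxB w hwB (key z hz) (rs' _ _ (key w hw)))
  have fin : ∀ c : V, (∀ x ∈ D, ∀ y ∈ D, x = y ∨ ({c, x, y} : Finset V) ∉ H) →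
      D.card ≤ mm H A c := by
    intro c h
    apply le_mm hDB
    intro s hs
    rw [mem_powersetCard] at hs
    obtain ⟨x, y, hxy, rfl⟩ := Finset.card_eq_two.1 hs.2
    exact (h x (hs.1 (by simp)) y (hs.1 (by simp))).resolve_left hxy
  rcases hall with h | h
  · exact (fin a h).trans (le_max_left _ _)
  · exact (fin a' h).trans (le_max_right _ _)

theorem upper {H : Finset (Finset V)} {A : Finset V} (h3 : Three H) (hF : Free H)
    (hA : Indep H A) (hB : Indep H Aᶜ) (hS : NoSingle H A) : H.card ≤ f A.card Aᶜ.card := by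
  rw [card_split h3 hA hB, ← g_sum]
  have h1 : ∑ s ∈ powersetCard 2 A, (Aᶜ.filter fun b => insert b s ∈ H).card ≤
      ∑ s ∈ powersetCard 2 A, s.sup (mm H A) := by
    apply Finset.sum_le_sum
    intro s hs
    rw [mem_powersetCard] at hs
    obtain ⟨a, a', haa, rfl⟩ := Finset.card_eq_two.1 hs.2
    have := pair_link h3 hF hB hS (hs.1 (by simp : a ∈ _)) (hs.1 (by simp : a' ∈ _)) haa
    rw [Finset.sup_insert, Finset.sup_singleton]
    exact this
  have h2 := pair_sum Aᶜ.card (mm H A) (mm_le H A) A.card A rfl
  have h4 : ∑ a ∈ A, (((powersetCard 2 Aᶜ).filter fun s => insert a s ∈ H).card +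
      (mm H A a).choose 2) ≤ ∑ a ∈ A, (Aᶜ.card).choose 2 :=
    Finset.sum_le_sum fun a _ => link_card H A a
  rw [Finset.sum_add_distrib, Finset.sum_const, smul_eq_mul] at h4
  omega

end Pool.Agent.K4H68.QC
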